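import Pool.Agent.helper71.DSW.SpecA

set_option autoImplicit false

namespace Pool.Agent.DSW

open Equiv Finset Function Pool.Agent.helper48.PP
open scoped ENNReal Classical

theorem RNM (hDYA : DYA_stmt) : RNM_stmt := by
  intro h l Z hZ hM
  obtain ⟨a, b, c, d, hab, hba, hcd, hdc, hbox⟩ := hM
  have hpos : 0 < 2 ^ h := by positivity
  -- points of AF are in the square
  have hAF : ∀ z : ℕ × ℕ, z ∈ ((AF Z : Finset (ℕ × ℕ)) : Set (ℕ × ℕ)) →
      z.1 < 2 ^ h ∧ z.2 < 2 ^ h ∧ ∀ u v : Nd h, z.1 / 2 ^ (u.1 : ℕ) = (u.2 : ℕ) →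
        z.2 / 2 ^ (v.1 : ℕ) = (v.2 : ℕ) → ¬ Z u v := by
    intro z hz
    have hz' : z ∈ AF Z := hz
    unfold AF at hz'
    rw [Finset.mem_filter, Finset.mem_product, Finset.mem_range, Finset.mem_range] at hz'
    exact ⟨hz'.1.1, hz'.1.2, hz'.2⟩
  rcases Nat.eq_zero_or_pos l with hl | hl
  · subst hl
    obtain ⟨r, s, _⟩ := hZ (fun r => r.elim0) (fun r => r.elim0) (fun r => r.elim0) (fun r => r.elim0)
    exact r.elim0
  · obtain ⟨ρ, hρi, hρ⟩ := hDYA h l a (fun r => min (b r) (2 ^ h - 1))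
      (by
        intro r
        obtain ⟨z, hz, h1, h2, h3, h4⟩ := hbox r ⟨0, hl⟩
        have := (hAF z hz).1
        have h5 := hab r
        show a r ≤ min (b r) (2 ^ h - 1)
        rw [le_min_iff]
        omega)
      (by
        intro r s hrs
        have := hba r s hrs
        show min (b r) (2 ^ h - 1) < a s
        exact lt_of_le_of_lt (min_le_left _ _) this)
      (by
        intro r
        show min (b r) (2 ^ h - 1) < 2 ^ h
        exact lt_of_le_of_lt (min_le_right _ _) (by omega))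
    obtain ⟨κ, hκi, hκ⟩ := hDYA h l c (fun r => min (d r) (2 ^ h - 1))
      (by
        intro r
        obtain ⟨z, hz, h1, h2, h3, h4⟩ := hbox ⟨0, hl⟩ r
        have := (hAF z hz).2.1
        have h5 := hcd r
        show c r ≤ min (d r) (2 ^ h - 1)
        rw [le_min_iff]
        omega)
      (by
        intro r s hrs
        have := hdc r s hrs
        show min (d r) (2 ^ h - 1) < c s
        exact lt_of_le_of_lt (min_le_left _ _) this)
      (by
        intro r
        show min (d r) (2 ^ h - 1) < 2 ^ h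
        exact lt_of_le_of_lt (min_le_right _ _) (by omega))
    obtain ⟨r, s, hrs⟩ := hZ ρ κ hρi hκi
    obtain ⟨z, hz, h1, h2, h3, h4⟩ := hbox r s
    obtain ⟨g1, g2, g3⟩ := hAF z hz
    refine g3 (ρ r) (κ s) ?_ ?_ hrs
    · exact hρ r z.1 h1 (by rw [le_min_iff]; omega)
    · exact hκ s z.2 h3 (by rw [le_min_iff]; omega)

end Pool.Agent.DSW
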