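import Pool.Agent.helper71.DSW.SpecA

set_option autoImplicit false

namespace Pool.Agent.DSW

open Equiv Finset Function Pool.Agent.helper48.PP
open scoped ENNReal Classical

/-- Increasing enumeration of a finite set of pairs for the lexicographic order. -/
theorem SOR_enum (n : ℕ) (S : Finset (ℕ × ℕ)) (hS : S.card = n) :
    ∃ e : Fin n → ℕ × ℕ, Injective e ∧ (∀ r, e r ∈ S) ∧ (∀ z ∈ S, ∃ r, e r = z) ∧
      (∀ r s, r < s → (e r).1 < (e s).1 ∨ ((e r).1 = (e s).1 ∧ (e r).2 < (e s).2)) := by
  let S1 : Finset (ℕ ×ₗ ℕ) := S.map (toLex (α := ℕ × ℕ)).toEmbedding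
  have h1 : S1.card = n := by
    show (S.map _).card = n
    rw [Finset.card_map, hS]
  let e1 := S1.orderIsoOfFin h1
  have hmem : ∀ r, (ofLex (e1 r).1) ∈ S := by
    intro r
    have h2 : (e1 r).1 ∈ S1 := (e1 r).2
    have h3 : (e1 r).1 ∈ S.map (toLex (α := ℕ × ℕ)).toEmbedding := h2
    rw [Finset.mem_map] at h3
    obtain ⟨z, hz, h4⟩ := h3
    have h5 : ofLex (e1 r).1 = z := by
      rw [← h4]
      rfl
    rw [h5]
    exact hz
  refine ⟨fun r => ofLex (e1 r).1, ?_, hmem, ?_, ?_⟩
  · intro r s hrs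
    have h2 : (e1 r).1 = (e1 s).1 := ofLex.injective hrs
    exact e1.injective (Subtype.ext h2)
  · intro z hz
    have h2 : toLex z ∈ S1 := by
      show toLex z ∈ S.map (toLex (α := ℕ × ℕ)).toEmbedding
      rw [Finset.mem_map]
      exact ⟨z, hz, rfl⟩
    refine ⟨e1.symm ⟨toLex z, h2⟩, ?_⟩
    show ofLex (e1 (e1.symm ⟨toLex z, h2⟩)).1 = z
    rw [e1.apply_symm_apply]
    rfl
  · intro r s hrs
    have h2 : e1 r < e1 s := e1.lt_iff_lt.mpr hrs
    have h3 : (e1 r).1 < (e1 s).1 := h2
    exact Prod.Lex.lt_iff.mp h3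

theorem SOR : SOR_stmt := by
  intro n S hS
  obtain ⟨e, he, heS, hex, hel⟩ := SOR_enum n S hS
  have hT : (S.image Prod.swap).card = n := by
    rw [Finset.card_image_of_injective _ Prod.swap_injective, hS]
  obtain ⟨f, hf, hfS, hfx, hfl⟩ := SOR_enum n (S.image Prod.swap) hT
  have hw : ∀ r, ∃ v, f v = (e r).swap := by
    intro r
    exact hfx _ (Finset.mem_image_of_mem _ (heS r))
  choose w hw using hw
  have hwi : Injective w := by
    intro r s hrs
    apply he
    apply Prod.swap_injective
    rw [← hw r, ← hw s, hrs]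
  have hwb : Bijective w := Finite.injective_iff_bijective.mp hwi
  have hX : Monotone fun r => (e r).1 := by
    intro r s hrs
    rcases eq_or_lt_of_le hrs with h | h
    · subst h
      exact le_refl _
    · rcases hel r s h with h1 | h1
      · exact h1.le
      · exact h1.1.le
  have hY : Monotone fun r => (f r).1 := by
    intro r s hrs
    rcases eq_or_lt_of_le hrs with h | h
    · subst h
      exact le_refl _
    · rcases hfl r s h with h1 | h1
      · exact h1.le
      · exact h1.1.le
  have hYw : ∀ r, (f (w r)).1 = (e r).2 := by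
    intro r
    rw [hw r]
    rfl
  have hYw2 : ∀ r, (f (w r)).2 = (e r).1 := by
    intro r
    rw [hw r]
    rfl
  refine ⟨Equiv.ofBijective w hwb, fun r => (e r).1, fun r => (f r).1, hX, hY, ?_, ?_, ?_⟩
  · ext z
    rw [Finset.mem_image]
    constructor
    · intro hz
      obtain ⟨r, hr⟩ := hex z hz
      refine ⟨r, Finset.mem_univ _, ?_⟩
      show ((e r).1, (f (w r)).1) = z
      rw [hYw r, ← hr]
    · rintro ⟨r, _, hr⟩
      have h1 : ((e r).1, (f (w r)).1) = z := hr
      rw [hYw r] at h1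
      rw [← h1]
      exact heS r
  · intro r s hrs hE
    have hE' : (e r).1 = (e s).1 := hE
    show w r < w s
    rcases hel r s hrs with h1 | h1
    · omega
    · by_contra hc
      have h2 : (f (w s)).1 ≤ (f (w r)).1 := hY (not_lt.mp hc)
      rw [hYw, hYw] at h2
      omega
  · intro r s hrs hE
    have hrs' : w r < w s := hrs
    have hE' : (f (w r)).1 = (f (w s)).1 := hE
    rcases hfl (w r) (w s) hrs' with h1 | h1
    · omega
    · by_contra hc
      have h2 : (e s).1 ≤ (e r).1 := hX (not_lt.mp hc)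
      rw [hYw2, hYw2] at h1
      omega

end Pool.Agent.DSW
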